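import Pool.Agent.OrdThm.OSJ

/-! Plain form of the one-sided core theorem (proof of helper39, answer 618): exhaust only the
cheap ears. Independent formalisation (helper23). -/

open Classical

namespace Pool.Agent.OSX23

open Pool.Agent.Mader (Acyc)
open Pool.Agent.OrdThm

universe u

variable {V : Type u} {a : V → V → Prop} {Z : Finset V} {N : ℕ}

theorem Acyc.anti {X Y : Finset V} (h : Acyc a Y) (hXY : X ⊆ Y) : Acyc a X :=
  fun S hS hne => h S (hS.trans hXY) hne

/-- PEELING. If no nonempty subset of `B` can be attached to `Y`, the colouring of the nodes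
`Y \ Ξ` extends to `B` with `k + N` colours and no class gets a new cycle. -/
theorem peel {Ξ Y : Finset V} {k : ℕ} (hatt : ∀ y ∈ Y \ Ξ, Att a Z N Y y) {P : Finset ℕ}
    (hP : k + N ≤ P.card) (c : V → ℕ) :
    ∀ n : ℕ, ∀ B : Finset V, B.card = n → Disjoint B Y → Disjoint (Y ∪ B) Z → LCol a 0 B k →
      (∀ Q ⊆ B, Q.Nonempty → ¬ ∀ v ∈ Q, Att a Z N (Y ∪ Q) v) →
      ∃ c' : V → ℕ, (∀ v, v ∉ B → c' v = c v) ∧ (∀ v ∈ B, c' v ∈ P) ∧
        ∀ l, Acyc a ((Y \ Ξ).filter (fun v => c v = l)) →
          Acyc a ((Y \ Ξ ∪ B).filter (fun v => c' v = l)) := by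
  intro n
  induction n using Nat.strong_induction_on with
  | _ n ih =>
    intro B hBn hBY hBZ hB hno
    by_cases hBe : B = ∅
    · subst hBe
      refine ⟨c, fun _ _ => rfl, fun v hv => absurd hv (Finset.notMem_empty v), fun l hl => ?_⟩
      rw [Finset.union_empty]
      exact hl
    · have hne : B.Nonempty := Finset.nonempty_iff_ne_empty.mpr hBe
      have h1 := hno B (Finset.Subset.refl _) hne
      push Not at h1
      obtain ⟨v, hvB, hv⟩ := h1
      unfold Att at hv
      push Not at hv
      obtain ⟨R, hR, hvR, hRc⟩ := hv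
      have hnode : ∀ y ∈ Y \ Ξ, y ∉ R := by
        intro y hy hyR
        have h2 := (hatt y hy).mono (Finset.subset_union_left (s₂ := B))
          (Finset.mem_sdiff.mp hy).1 hBZ
        have h3 := h2 R hR hyR
        omega
      obtain ⟨I, hI⟩ : ∃ I, I = B ∩ R := ⟨_, rfl⟩
      have hIB : I ⊆ B := by
        rw [hI]
        exact Finset.inter_subset_left
      have hvI : v ∈ I := by
        rw [hI]
        exact Finset.mem_inter.mpr ⟨hvB, hvR⟩
      have hlt : (B \ I).card < n := by
        rw [← hBn]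
        apply Finset.card_lt_card
        rw [Finset.ssubset_iff_of_subset Finset.sdiff_subset]
        exact ⟨v, hvB, fun h => (Finset.mem_sdiff.mp h).2 hvI⟩
      obtain ⟨c1, h2, h3, h4⟩ := ih _ hlt (B \ I) rfl (hBY.mono_left Finset.sdiff_subset)
        (hBZ.mono_left (Finset.union_subset_union (Finset.Subset.refl _) Finset.sdiff_subset))
        (hB.mono (le_refl _) Finset.sdiff_subset (le_refl _))
        (fun Q hQ hQne => hno Q (hQ.trans Finset.sdiff_subset) hQne)
      obtain ⟨F, hF⟩ : ∃ F, F = (nb a (Y ∪ B ∪ Z) R).image c1 := ⟨_, rfl⟩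
      have hFc : F.card < N := by
        rw [hF]
        exact Finset.card_image_le.trans_lt hRc
      obtain ⟨c2, h5, h6⟩ := (hB.mono (le_refl 0) hIB (le_refl k)) (P \ F) (fun _ => ∅) (by
        have e1 := Finset.le_card_sdiff F P
        omega) (fun _ _ => by simp)
      refine ⟨fun x => if x ∈ I then c2 x else c1 x, ?_, ?_, ?_⟩
      · intro x hx
        have hxI : x ∉ I := fun h => hx (hIB h)
        simp only [if_neg hxI]
        exact h2 x (fun h => hx (Finset.mem_sdiff.mp h).1)
      · intro x hx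
        by_cases hxI : x ∈ I
        · simp only [if_pos hxI]
          exact (Finset.mem_sdiff.mp (h5 x hxI).1).1
        · simp only [if_neg hxI]
          exact h3 x (Finset.mem_sdiff.mpr ⟨hx, hxI⟩)
      · intro l hl S hS hSne
        have hSm : ∀ x ∈ S, x ∈ Y \ Ξ ∪ B ∧ (if x ∈ I then c2 x else c1 x) = l := fun x hx =>
          Finset.mem_filter.mp (hS hx)
        by_cases hSI : (S ∩ I).Nonempty
        · obtain ⟨w, hw, hw'⟩ := h6 l (S ∩ I) (by
            intro x hx
            rw [Finset.mem_inter] at hx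
            have h7 := (hSm x hx.1).2
            rw [if_pos hx.2] at h7
            exact Finset.mem_filter.mpr ⟨hx.2, h7⟩) hSI
          rw [Finset.mem_inter] at hw
          refine ⟨w, hw.1, fun x hx hwx => ?_⟩
          by_cases hxI : x ∈ I
          · exact hw' x (Finset.mem_inter.mpr ⟨hx, hxI⟩) hwx
          · obtain ⟨h7, h8⟩ := hSm x hx
            rw [if_neg hxI] at h8
            have h9 := (hSm w hw.1).2
            rw [if_pos hw.2] at h9
            have hxYB : x ∈ Y ∪ B := by
              rcases Finset.mem_union.mp h7 with h10 | h10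
              · exact Finset.mem_union_left _ (Finset.mem_sdiff.mp h10).1
              · exact Finset.mem_union_right _ h10
            have hxR : x ∉ R := by
              intro hxR
              rcases Finset.mem_union.mp h7 with h10 | h10
              · exact hnode x h10 hxR
              · apply hxI
                rw [hI]
                exact Finset.mem_inter.mpr ⟨h10, hxR⟩
            have hwR : w ∈ R := by
              have := hw.2
              rw [hI] at this
              exact (Finset.mem_inter.mp this).2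
            have hxn : x ∈ nb a (Y ∪ B ∪ Z) R :=
              mem_nb.mpr ⟨Finset.mem_union_left _ hxYB, hxR, w, hwR, hwx⟩
            apply (Finset.mem_sdiff.mp (h5 w hw.2).1).2
            rw [h9, ← h8, hF]
            exact Finset.mem_image_of_mem c1 hxn
        · have hSI' : ∀ x ∈ S, x ∉ I := fun x hx hxI =>
            hSI ⟨x, Finset.mem_inter.mpr ⟨hx, hxI⟩⟩
          refine h4 l hl S (fun x hx => ?_) hSne
          obtain ⟨h7, h8⟩ := hSm x hx
          rw [if_neg (hSI' x hx)] at h8
          refine Finset.mem_filter.mpr ⟨?_, h8⟩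
          rcases Finset.mem_union.mp h7 with h10 | h10
          · exact Finset.mem_union_left _ h10
          · exact Finset.mem_union_right _ (Finset.mem_sdiff.mpr ⟨h10, hSI' x hx⟩)

/-- The exploration: from every state the colouring can be completed. -/
theorem explore (hirr : ∀ v, ¬ a v v) (hN : 0 < N) {X Ξ : Finset V} {k : ℕ}
    (hd : Disjoint X Z) (hB : Built a Z N Ξ X)
    (hk : ∀ W ⊆ X \ Ξ, (∀ w ∈ W, Att a Z N (insert w (X \ W)) w) → LCol a 0 W k)
    {PA PB : Finset ℕ} (hPA : k + N ≤ PA.card) (hPB : N ≤ PB.card) (hAB : Disjoint PA PB) :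
    ∀ n : ℕ, ∀ (Y E : Finset V) (c : V → ℕ) (P P' : Finset ℕ), (X \ Y).card = n →
      Ξ ⊆ E → E ⊆ Y → Y ⊆ X → k + N ≤ P.card → k + N ≤ P'.card →
      Disjoint PA P → Disjoint PA P' → Disjoint PB P → Disjoint PB P' → Disjoint P P' →
      (∀ y ∈ Y \ Ξ, Att a Z N Y y) → (∀ y ∈ E \ Ξ, Att a Z N E y) →
      (∀ y ∈ Y \ Ξ, c y ∈ PA ∪ PB ∪ (P ∪ P')) →
      (∀ l, Acyc a ((Y \ Ξ).filter (fun v => c v = l))) →
      (∀ y ∈ Y \ E, c y ∉ P) →
      (E = Ξ ∨ ∀ Q ⊆ X \ Y, Q.Nonempty → LCol a 0 Q k → ¬ ∀ v ∈ Q, Att a Z N (E ∪ Q) v) →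
      ∃ c' : V → ℕ, (∀ v ∈ X \ Ξ, c' v ∈ PA ∪ PB ∪ (P ∪ P')) ∧
        ∀ l, Acyc a ((X \ Ξ).filter (fun v => c' v = l)) := by
  intro n
  induction n using Nat.strong_induction_on with
  | _ n ih =>
    intro Y E c P P' hn hΞE hEY hYX hP hP' hAP hAP' hBP hBP' hPP' hatt hattE hc hac hpar hH
    have hΞY : Ξ ⊆ Y := hΞE.trans hEY
    have hYZ : Disjoint Y Z := hd.mono_left hYX
    obtain ⟨L, hL⟩ : ∃ L, L = (X \ Y).filter (fun v => Att a Z N (insert v Y) v) := ⟨_, rfl⟩
    have hLm : ∀ v, v ∈ L ↔ (v ∈ X ∧ v ∉ Y) ∧ Att a Z N (insert v Y) v := by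
      intro v
      rw [hL, Finset.mem_filter, Finset.mem_sdiff]
    by_cases hear : ∃ Q ⊆ X \ Y, Q.Nonempty ∧ Disjoint Q L ∧ LCol a 0 Q k ∧
        ∀ v ∈ Q, Att a Z N (Y ∪ Q) v
    · -- a cheap ear
      have hfin : ((X \ Y).powerset.filter (fun Q => Q.Nonempty ∧ Disjoint Q L ∧ LCol a 0 Q k ∧
          ∀ v ∈ Q, Att a Z N (Y ∪ Q) v)).Nonempty := by
        obtain ⟨Q, hQ, h⟩ := hear
        exact ⟨Q, Finset.mem_filter.mpr ⟨Finset.mem_powerset.mpr hQ, h⟩⟩
      obtain ⟨Q, hQ, hmin⟩ := Finset.exists_min_image _ Finset.card hfin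
      rw [Finset.mem_filter, Finset.mem_powerset] at hQ
      obtain ⟨hQX, ⟨p, hp⟩, hQL, hQk, hQa⟩ := hQ
      have hQX' : ∀ v ∈ Q, v ∈ X ∧ v ∉ Y := fun v hv => Finset.mem_sdiff.mp (hQX hv)
      obtain ⟨B, hBdef⟩ : ∃ B, B = Q.erase p := ⟨_, rfl⟩
      have hBQ : B ⊆ Q := by
        rw [hBdef]
        exact Finset.erase_subset _ _
      have hBY : Disjoint B Y := by
        rw [Finset.disjoint_left]
        intro v hv
        exact (hQX' v (hBQ hv)).2
      have hYQX : Y ∪ Q ⊆ X :=
        Finset.union_subset hYX (fun v hv => (hQX' v hv).1)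
      have hYQZ : Disjoint (Y ∪ Q) Z := hd.mono_left hYQX
      obtain ⟨c1, h1, h2, h3⟩ := peel (Ξ := Ξ) hatt hPA c B.card B rfl hBY
        (hYQZ.mono_left (Finset.union_subset_union (Finset.Subset.refl _) hBQ))
        (hQk.mono (le_refl _) hBQ (le_refl _)) (by
          intro Q' hQ' hne hall
          have h4 := hmin Q' (Finset.mem_filter.mpr ⟨Finset.mem_powerset.mpr
            ((hQ'.trans hBQ).trans hQX), hne, hQL.mono_left (hQ'.trans hBQ),
            hQk.mono (le_refl _) (hQ'.trans hBQ) (le_refl _), hall⟩)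
          have h5 := Finset.card_le_card hQ'
          rw [hBdef, Finset.card_erase_of_mem hp] at h5
          have h6 : 0 < Q.card := Finset.card_pos.mpr ⟨p, hp⟩
          omega)
      -- the nodes seen by `p`
      have hpL : p ∉ L := fun h => Finset.disjoint_left.mp hQL hp h
      have hpX := hQX' p hp
      have hpn : ¬ Att a Z N (insert p Y) p := fun h => hpL ((hLm p).mpr ⟨hpX, h⟩)
      unfold Att at hpn
      push Not at hpn
      obtain ⟨R, hR, hpR, hRc⟩ := hpn
      have hYpZ : Disjoint (insert p Y) Z :=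
        hd.mono_left (Finset.insert_subset hpX.1 hYX)
      have hnode : ∀ y ∈ Y \ Ξ, y ∉ R := by
        intro y hy hyR
        have h4 := (hatt y hy).mono (Finset.subset_insert p Y)
          (Finset.mem_sdiff.mp hy).1 hYpZ
        have h5 := h4 R hR hyR
        omega
      obtain ⟨F, hF⟩ : ∃ F, F = ((Y \ Ξ).filter (fun y => a p y)).image c := ⟨_, rfl⟩
      have hFc : F.card < N := by
        rw [hF]
        refine (Finset.card_image_le.trans (Finset.card_le_card ?_)).trans_lt hRc
        intro y hy
        rw [Finset.mem_filter] at hy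
        exact mem_nb.mpr ⟨Finset.mem_union_left _ (Finset.mem_insert_of_mem
          (Finset.mem_sdiff.mp hy.1).1), hnode y hy.1, p, hpR, hy.2⟩
      obtain ⟨b, hb⟩ : (PB \ F).Nonempty := by
        rw [← Finset.card_pos]
        have e1 := Finset.le_card_sdiff F PB
        omega
      rw [Finset.mem_sdiff] at hb
      have hpB : p ∉ B := by
        rw [hBdef]
        exact Finset.notMem_erase _ _
      have hQB : ∀ v ∈ Q, v = p ∨ v ∈ B := by
        intro v hv
        by_cases hvp : v = p
        · exact Or.inl hvp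
        · right
          rw [hBdef]
          exact Finset.mem_erase.mpr ⟨hvp, hv⟩
      obtain ⟨c2, hc2⟩ : ∃ c2 : V → ℕ, c2 = fun v => if v = p then b else c1 v := ⟨_, rfl⟩
      have hc2p : c2 p = b := by
        rw [hc2]
        simp
      have hc2n : ∀ v, v ≠ p → c2 v = c1 v := by
        intro v hv
        rw [hc2]
        simp [hv]
      have hYp : ∀ v ∈ Y, v ≠ p := fun v hv h => hpX.2 (h ▸ hv)
      have hc2Y : ∀ v ∈ Y, c2 v = c v := by
        intro v hv
        rw [hc2n v (hYp v hv)]
        exact h1 v (fun h => Finset.disjoint_left.mp hBY h hv)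
      have hc2B : ∀ v ∈ B, c2 v ∈ PA := by
        intro v hv
        rw [hc2n v (fun h => hpB (h ▸ hv))]
        exact h2 v hv
      have hc2Q : ∀ v ∈ Q, c2 v ∈ PA ∪ PB := by
        intro v hv
        rcases hQB v hv with h4 | h4
        · rw [h4, hc2p]
          exact Finset.mem_union_right _ hb.1
        · exact Finset.mem_union_left _ (hc2B v h4)
      have hlt : (X \ (Y ∪ Q)).card < n := by
        rw [← hn]
        apply Finset.card_lt_card
        rw [Finset.ssubset_iff_of_subset
          (Finset.sdiff_subset_sdiff (Finset.Subset.refl _) Finset.subset_union_left)]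
        exact ⟨p, Finset.mem_sdiff.mpr hpX,
          fun h => (Finset.mem_sdiff.mp h).2 (Finset.mem_union_right _ hp)⟩
      have hmemYQ : ∀ y ∈ (Y ∪ Q) \ Ξ, y ∈ Y \ Ξ ∨ (y ∈ Q ∧ y ∉ Y) := by
        intro y hy
        rw [Finset.mem_sdiff, Finset.mem_union] at hy
        by_cases hyY : y ∈ Y
        · exact Or.inl (Finset.mem_sdiff.mpr ⟨hyY, hy.2⟩)
        · exact Or.inr ⟨hy.1.resolve_left hyY, hyY⟩
      refine ih _ hlt (Y ∪ Q) E c2 P P' rfl hΞE (hEY.trans Finset.subset_union_left) hYQX hP hP'
        hAP hAP' hBP hBP' hPP' ?_ hattE ?_ ?_ ?_ ?_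
      · intro y hy
        rcases hmemYQ y hy with h4 | h4
        · exact (hatt y h4).mono Finset.subset_union_left (Finset.mem_sdiff.mp h4).1 hYQZ
        · exact hQa y h4.1
      · intro y hy
        rcases hmemYQ y hy with h4 | h4
        · rw [hc2Y y (Finset.mem_sdiff.mp h4).1]
          exact hc y h4
        · exact Finset.mem_union_left _ (hc2Q y h4.1)
      · intro l S hS hSne
        have hSm : ∀ x ∈ S, x ∈ (Y ∪ Q) \ Ξ ∧ c2 x = l := fun x hx =>
          Finset.mem_filter.mp (hS hx)
        by_cases hpS : p ∈ S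
        · refine ⟨p, hpS, fun x hx hpx => ?_⟩
          obtain ⟨h4, h5⟩ := hSm x hx
          have h6 := (hSm p hpS).2
          rw [hc2p] at h6
          rcases hmemYQ x h4 with h7 | h7
          · apply hb.2
            rw [h6, ← h5, hc2Y x (Finset.mem_sdiff.mp h7).1, hF]
            exact Finset.mem_image_of_mem c (Finset.mem_filter.mpr ⟨h7, hpx⟩)
          · rcases hQB x h7.1 with h8 | h8
            · rw [h8] at hpx
              exact hirr p hpx
            · have h9 := hc2B x h8
              rw [h5, ← h6] at h9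
              exact Finset.disjoint_left.mp hAB h9 hb.1
        · refine h3 l (hac l) S (fun x hx => ?_) hSne
          obtain ⟨h4, h5⟩ := hSm x hx
          have hxp : x ≠ p := fun h => hpS (h ▸ hx)
          rw [hc2n x hxp] at h5
          refine Finset.mem_filter.mpr ⟨?_, h5⟩
          rcases hmemYQ x h4 with h7 | h7
          · exact Finset.mem_union_left _ h7
          · exact Finset.mem_union_right _ ((hQB x h7.1).resolve_left hxp)
      · intro y hy hyP
        rw [Finset.mem_sdiff, Finset.mem_union] at hy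
        by_cases hyY : y ∈ Y
        · rw [hc2Y y hyY] at hyP
          exact hpar y (Finset.mem_sdiff.mpr ⟨hyY, hy.2⟩) hyP
        · have h4 := hc2Q y (hy.1.resolve_left hyY)
          rcases Finset.mem_union.mp h4 with h5 | h5
          · exact Finset.disjoint_left.mp hAP h5 hyP
          · exact Finset.disjoint_left.mp hBP h5 hyP
      · rcases hH with h4 | h4
        · exact Or.inl h4
        · right
          intro Q' hQ' hne hk'
          exact h4 Q' (hQ'.trans (Finset.sdiff_subset_sdiff (Finset.Subset.refl _)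
            Finset.subset_union_left)) hne hk'
    · -- no cheap ear: the next layer
      by_cases hYX' : Y = X
      · subst hYX'
        exact ⟨c, hc, hac⟩
      · obtain ⟨x, hxX, hxY, hxa⟩ := hB.exists_next hd Y hYX hΞY hYX'
        have hxL : x ∈ L := (hLm x).mpr ⟨⟨hxX, hxY⟩, hxa⟩
        have hLX : L ⊆ X := fun v hv => ((hLm v).mp hv).1.1
        have hLY : Disjoint L Y := by
          rw [Finset.disjoint_left]
          intro v hv
          exact ((hLm v).mp hv).1.2
        have hLk : LCol a 0 L k := by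
          apply hk L
          · intro v hv
            exact Finset.mem_sdiff.mpr ⟨hLX hv, fun h => ((hLm v).mp hv).1.2 (hΞY h)⟩
          · intro w hw
            refine ((hLm w).mp hw).2.mono ?_ (Finset.mem_insert_self _ _) ?_
            · apply Finset.insert_subset_insert
              intro y hy
              exact Finset.mem_sdiff.mpr ⟨hYX hy, fun h => Finset.disjoint_left.mp hLY h hy⟩
            · exact hd.mono_left (Finset.insert_subset (hLX hw) Finset.sdiff_subset)
        have hYLX : Y ∪ L ⊆ X := Finset.union_subset hYX hLX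
        have hYLZ : Disjoint (Y ∪ L) Z := hd.mono_left hYLX
        have hcol : ∃ c1 : V → ℕ, (∀ v, v ∉ L → c1 v = c v) ∧ (∀ v ∈ L, c1 v ∈ P) ∧
            ∀ l, Acyc a ((E \ Ξ).filter (fun v => c v = l)) →
              Acyc a ((E \ Ξ ∪ L).filter (fun v => c1 v = l)) := by
          rcases hH with h4 | h4
          · obtain ⟨d, h5, h6⟩ := hLk P (fun _ => ∅) (by omega) (fun _ _ => by simp)
            refine ⟨fun v => if v ∈ L then d v else c v, fun v hv => if_neg hv, fun v hv => ?_,
              fun l _ => ?_⟩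
            · simp only [if_pos hv]
              exact (h5 v hv).1
            · refine Acyc.anti (h6 l) (fun v hv => ?_)
              rw [Finset.mem_filter, h4, Finset.sdiff_self, Finset.empty_union] at hv
              obtain ⟨h7, h8⟩ := hv
              simp only [if_pos h7] at h8
              exact Finset.mem_filter.mpr ⟨h7, h8⟩
          · refine peel (Ξ := Ξ) hattE hP c L.card L rfl (hLY.mono_right hEY) ?_ hLk ?_
            · exact hYLZ.mono_left (Finset.union_subset_union hEY (Finset.Subset.refl _))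
            · intro Q hQ hne
              refine h4 Q (fun v hv => Finset.mem_sdiff.mpr ((hLm v).mp (hQ hv)).1) hne
                (hLk.mono (le_refl _) hQ (le_refl _))
        obtain ⟨c1, h1, h2, h3⟩ := hcol
        have hlt : (X \ (Y ∪ L)).card < n := by
          rw [← hn]
          apply Finset.card_lt_card
          rw [Finset.ssubset_iff_of_subset
            (Finset.sdiff_subset_sdiff (Finset.Subset.refl _) Finset.subset_union_left)]
          exact ⟨x, Finset.mem_sdiff.mpr ⟨hxX, hxY⟩,
            fun h => (Finset.mem_sdiff.mp h).2 (Finset.mem_union_right _ hxL)⟩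
        have hc1Y : ∀ v ∈ Y, c1 v = c v := fun v hv =>
          h1 v (fun h => Finset.disjoint_left.mp hLY h hv)
        have hmemYL : ∀ y ∈ (Y ∪ L) \ Ξ, y ∈ Y \ Ξ ∨ y ∈ L := by
          intro y hy
          rw [Finset.mem_sdiff, Finset.mem_union] at hy
          rcases hy.1 with h4 | h4
          · exact Or.inl (Finset.mem_sdiff.mpr ⟨h4, hy.2⟩)
          · exact Or.inr h4
        have hres := ih _ hlt (Y ∪ L) Y c1 P' P rfl hΞY Finset.subset_union_left hYLX hP' hP
          hAP' hAP hBP' hBP hPP'.symm ?_ hatt ?_ ?_ ?_ ?_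
        · rw [Finset.union_comm P P']
          exact hres
        · intro y hy
          rcases hmemYL y hy with h4 | h4
          · exact (hatt y h4).mono Finset.subset_union_left (Finset.mem_sdiff.mp h4).1 hYLZ
          · refine ((hLm y).mp h4).2.mono ?_ (Finset.mem_insert_self _ _) hYLZ
            exact Finset.insert_subset (Finset.mem_union_right _ h4) Finset.subset_union_left
        · intro y hy
          rw [Finset.union_comm P' P]
          rcases hmemYL y hy with h4 | h4
          · rw [hc1Y y (Finset.mem_sdiff.mp h4).1]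
            exact hc y h4
          · exact Finset.mem_union_right _ (Finset.mem_union_left _ (h2 y h4))
        · intro l
          by_cases hlP : l ∈ P
          · have h4 : Acyc a ((E \ Ξ).filter (fun v => c v = l)) := by
              refine Acyc.anti (hac l) (fun v hv => ?_)
              rw [Finset.mem_filter, Finset.mem_sdiff] at hv
              exact Finset.mem_filter.mpr ⟨Finset.mem_sdiff.mpr ⟨hEY hv.1.1, hv.1.2⟩, hv.2⟩
            refine Acyc.anti (h3 l h4) (fun v hv => ?_)
            rw [Finset.mem_filter] at hv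
            refine Finset.mem_filter.mpr ⟨?_, hv.2⟩
            rcases hmemYL v hv.1 with h5 | h5
            · rw [Finset.mem_sdiff] at h5
              apply Finset.mem_union_left
              refine Finset.mem_sdiff.mpr ⟨?_, h5.2⟩
              by_contra hvE
              apply hpar v (Finset.mem_sdiff.mpr ⟨h5.1, hvE⟩)
              rw [← hc1Y v h5.1, hv.2]
              exact hlP
            · exact Finset.mem_union_right _ h5
          · refine Acyc.anti (hac l) (fun v hv => ?_)
            rw [Finset.mem_filter] at hv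
            rcases hmemYL v hv.1 with h5 | h5
            · refine Finset.mem_filter.mpr ⟨h5, ?_⟩
              rw [← hc1Y v (Finset.mem_sdiff.mp h5).1]
              exact hv.2
            · exfalso
              apply hlP
              rw [← hv.2]
              exact h2 v h5
        · intro y hy hyP
          rw [Finset.mem_sdiff, Finset.mem_union] at hy
          have h4 := h2 y (hy.1.resolve_left hy.2)
          exact Finset.disjoint_left.mp hPP' h4 hyP
        · right
          intro Q hQ hne hQk hall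
          apply hear
          refine ⟨Q, hQ.trans (Finset.sdiff_subset_sdiff (Finset.Subset.refl _)
            Finset.subset_union_left), hne, ?_, hQk, hall⟩
          rw [Finset.disjoint_left]
          intro v hv hvL
          exact (Finset.mem_sdiff.mp (hQ hv)).2 (Finset.mem_union_right _ hvL)

/-- THE PLAIN ONE-SIDED CORE THEOREM (helper39). -/
theorem one_sided_plain {X T : Finset V} (hirr : ∀ v, ¬ a v v) (hN : 0 < N) (hTX : T ⊆ X)
    (hd : Disjoint X Z) {k : ℕ} (hT : ∀ v ∈ T, Att a Z N X v)
    (hk : ∀ W ⊆ T, (∀ w ∈ W, Att a Z N (insert w (X \ W)) w) → LCol a 0 W k) :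
    LCol a 0 T (13 * N + 3 * k) := by
  obtain ⟨Ξ, hΞ, hΞT, hno, hB⟩ := order_junk (a := a) (T := T) (X := X) (Z := Z) hN
    (Rich := fun K => ¬ LCol a 0 K (5 * N))
    (fun K K' hKK' hK h => hK (h.mono (le_refl _) hKK' (le_refl _)))
    (fun K hK => by
      have := card_of_not_LCol hirr hK
      omega) hT
  have hcol : LCol a 0 (T ∩ Ξ) (9 * N) := by
    by_contra hbad
    obtain ⟨K, hKT, hKi, hKb⟩ := halving_junk Z (q := 2 * N) Finset.inter_subset_right hbad
    apply hno K (hKT.trans Finset.inter_subset_left) hKi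
    intro h
    exact hKb (h.mono (le_refl _) (Finset.Subset.refl _) (by omega))
  intro P F hP hF
  have hF0 : ∀ v ∈ T, F v = ∅ := fun v hv => Finset.card_eq_zero.mp (Nat.le_zero.mp (hF v hv))
  -- the palettes
  obtain ⟨PX, hPX, hPXc⟩ := Finset.exists_subset_card_eq (s := P) (n := 9 * N) (by omega)
  have r1 : 4 * N + 3 * k ≤ (P \ PX).card := by
    rw [Finset.card_sdiff_of_subset hPX]
    omega
  obtain ⟨PA, hPA, hPAc⟩ := Finset.exists_subset_card_eq (s := P \ PX) (n := k + N) (by omega)
  have r2 : 3 * N + 2 * k ≤ ((P \ PX) \ PA).card := by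
    rw [Finset.card_sdiff_of_subset hPA]
    omega
  obtain ⟨PB, hPB, hPBc⟩ := Finset.exists_subset_card_eq (s := (P \ PX) \ PA) (n := N) (by omega)
  have r3 : 2 * N + 2 * k ≤ (((P \ PX) \ PA) \ PB).card := by
    rw [Finset.card_sdiff_of_subset hPB]
    omega
  obtain ⟨P0, hP0, hP0c⟩ := Finset.exists_subset_card_eq (s := ((P \ PX) \ PA) \ PB)
    (n := k + N) (by omega)
  have r4 : N + k ≤ ((((P \ PX) \ PA) \ PB) \ P0).card := by
    rw [Finset.card_sdiff_of_subset hP0]
    omega
  obtain ⟨P1, hP1⟩ : ∃ P1, P1 = (((P \ PX) \ PA) \ PB) \ P0 := ⟨_, rfl⟩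
  rw [← hP1] at r4
  have m1 : ∀ x ∈ PA, x ∈ P ∧ x ∉ PX := fun x hx => Finset.mem_sdiff.mp (hPA hx)
  have m2 : ∀ x ∈ PB, (x ∈ P ∧ x ∉ PX) ∧ x ∉ PA := by
    intro x hx
    have := hPB hx
    rw [Finset.mem_sdiff, Finset.mem_sdiff] at this
    exact this
  have m3 : ∀ x ∈ P0, ((x ∈ P ∧ x ∉ PX) ∧ x ∉ PA) ∧ x ∉ PB := by
    intro x hx
    have := hP0 hx
    rw [Finset.mem_sdiff, Finset.mem_sdiff, Finset.mem_sdiff] at this
    exact this
  have m4 : ∀ x ∈ P1, (((x ∈ P ∧ x ∉ PX) ∧ x ∉ PA) ∧ x ∉ PB) ∧ x ∉ P0 := by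
    intro x hx
    rw [hP1, Finset.mem_sdiff, Finset.mem_sdiff, Finset.mem_sdiff, Finset.mem_sdiff] at hx
    exact hx
  obtain ⟨c, h1, h2⟩ := explore (Ξ := Ξ) hirr hN hd hB (k := k)
    (fun W hW => hk W (hW.trans hΞT)) (PA := PA) (PB := PB) (by omega) (by omega)
    (Finset.disjoint_left.mpr (fun x hx hx' => (m2 x hx').2 hx))
    (X \ Ξ).card Ξ Ξ (fun _ => 0) P0 P1 rfl (Finset.Subset.refl _) (Finset.Subset.refl _) hΞ
    (by omega) (by omega)
    (Finset.disjoint_left.mpr (fun x hx hx' => (m3 x hx').1.2 hx))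
    (Finset.disjoint_left.mpr (fun x hx hx' => (m4 x hx').1.1.2 hx))
    (Finset.disjoint_left.mpr (fun x hx hx' => (m3 x hx').2 hx))
    (Finset.disjoint_left.mpr (fun x hx hx' => (m4 x hx').1.2 hx))
    (Finset.disjoint_left.mpr (fun x hx hx' => (m4 x hx').2 hx))
    (fun y hy => absurd hy (by simp)) (fun y hy => absurd hy (by simp))
    (fun y hy => absurd hy (by simp)) (fun l => by
      intro S hS hne
      obtain ⟨s, hs⟩ := hne
      have := Finset.mem_filter.mp (hS hs)
      rw [Finset.sdiff_self] at this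
      exact absurd this.1 (Finset.notMem_empty _))
    (fun y hy => absurd hy (by simp)) (Or.inl rfl)
  obtain ⟨d, h3, h4⟩ := hcol PX (fun _ => ∅) (by omega) (fun _ _ => by simp)
  have hcP : ∀ v ∈ X \ Ξ, c v ∈ P ∧ c v ∉ PX := by
    intro v hv
    have h5 := h1 v hv
    rw [Finset.mem_union, Finset.mem_union, Finset.mem_union] at h5
    rcases h5 with (h5 | h5) | (h5 | h5)
    · exact m1 _ h5
    · exact (m2 _ h5).1
    · exact (m3 _ h5).1.1
    · exact (m4 _ h5).1.1.1
  refine ⟨fun v => if v ∈ Ξ then d v else c v, ?_, ?_⟩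
  · intro v hv
    refine ⟨?_, ?_⟩
    · by_cases hvΞ : v ∈ Ξ
      · simp only [if_pos hvΞ]
        exact hPX (h3 v (Finset.mem_inter.mpr ⟨hv, hvΞ⟩)).1
      · simp only [if_neg hvΞ]
        exact (hcP v (Finset.mem_sdiff.mpr ⟨hTX hv, hvΞ⟩)).1
    · rw [hF0 v hv]
      exact Finset.notMem_empty _
  · intro l
    by_cases hl : l ∈ PX
    · refine Acyc.anti (h4 l) (fun v hv => ?_)
      rw [Finset.mem_filter] at hv
      obtain ⟨h5, h6⟩ := hv
      by_cases hvΞ : v ∈ Ξ
      · simp only [if_pos hvΞ] at h6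
        exact Finset.mem_filter.mpr ⟨Finset.mem_inter.mpr ⟨h5, hvΞ⟩, h6⟩
      · simp only [if_neg hvΞ] at h6
        exfalso
        apply (hcP v (Finset.mem_sdiff.mpr ⟨hTX h5, hvΞ⟩)).2
        rw [h6]
        exact hl
    · refine Acyc.anti (h2 l) (fun v hv => ?_)
      rw [Finset.mem_filter] at hv
      obtain ⟨h5, h6⟩ := hv
      by_cases hvΞ : v ∈ Ξ
      · simp only [if_pos hvΞ] at h6
        exfalso
        apply hl
        rw [← h6]
        exact (h3 v (Finset.mem_inter.mpr ⟨h5, hvΞ⟩)).1
      · simp only [if_neg hvΞ] at h6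
        exact Finset.mem_filter.mpr ⟨Finset.mem_sdiff.mpr ⟨hTX h5, hvΞ⟩, h6⟩

end Pool.Agent.OSX23
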